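import Pool.Agent.Helper19.SQ.GoalsQ

/-!
Project SQ (MP_bb32d1_al), packet SQ-CUP: cups and caps.
-/

namespace Pool.Agent.Helper14.SQ

open Pool.Agent.Helper19.SQ

noncomputable section

section Abs

variable {A : Type} [Ring A] [Algebra ℂ A] {ι : Type} [Fintype ι] [DecidableEq ι]

/-- cap identity. -/
def CapP (H1 H2 : A →ₐ[ℂ] Matrix ι ι A) (w : ι → ℂ) (a : A) : Prop :=
  ∀ i k, ∑ j, w j • H2 (H1 a j i) j k = if k = i then w k • a else 0

/-- cup identity. -/
def CupP (H1 H2 : A →ₐ[ℂ] Matrix ι ι A) (w : ι → ℂ) (a : A) : Prop :=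
  ∀ j p, ∑ i, w i • H2 (H1 a j i) p i = if j = p then w p • a else 0

variable {H1 H2 : A →ₐ[ℂ] Matrix ι ι A} {w : ι → ℂ}

theorem CapP.mul {a b : A} (ha : CapP H1 H2 w a) (hb : CapP H1 H2 w b) :
    CapP H1 H2 w (a * b) := by
  intro i k
  have e : ∀ j, w j • H2 (H1 (a * b) j i) j k
      = ∑ r, ∑ s, (w j • H2 (H1 a j r) j s) * H2 (H1 b r i) s k := by
    intro j
    simp only [map_mul, Matrix.mul_apply, map_sum, Matrix.sum_apply, Finset.smul_sum,
      smul_mul_assoc]
  have e2 : ∀ r, ∑ j, ∑ s, (w j • H2 (H1 a j r) j s) * H2 (H1 b r i) s k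
      = a * (w r • H2 (H1 b r i) r k) := by
    intro r
    rw [Finset.sum_comm]
    have : ∀ s, ∑ j, (w j • H2 (H1 a j r) j s) * H2 (H1 b r i) s k
        = if s = r then a * (w s • H2 (H1 b r i) s k) else 0 := by
      intro s
      rw [← Finset.sum_mul, ha r s]
      split_ifs
      · rw [smul_mul_assoc, mul_smul_comm]
      · rw [zero_mul]
    simp only [this, Finset.sum_ite_eq', Finset.mem_univ, if_true]
  simp only [e]
  rw [Finset.sum_comm]
  simp only [e2]
  rw [← Finset.mul_sum, hb i k]
  split_ifs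
  · rw [mul_smul_comm]
  · rw [mul_zero]

theorem CupP.mul {a b : A} (ha : CupP H1 H2 w a) (hb : CupP H1 H2 w b) :
    CupP H1 H2 w (a * b) := by
  intro j p
  have e : ∀ i, w i • H2 (H1 (a * b) j i) p i
      = ∑ r, ∑ s, H2 (H1 a j r) p s * (w i • H2 (H1 b r i) s i) := by
    intro i
    simp only [map_mul, Matrix.mul_apply, map_sum, Matrix.sum_apply, Finset.smul_sum,
      mul_smul_comm]
  have e2 : ∀ r, ∑ i, ∑ s, H2 (H1 a j r) p s * (w i • H2 (H1 b r i) s i)
      = (w r • H2 (H1 a j r) p r) * b := by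
    intro r
    rw [Finset.sum_comm]
    have : ∀ s, ∑ i, H2 (H1 a j r) p s * (w i • H2 (H1 b r i) s i)
        = if r = s then (w s • H2 (H1 a j r) p s) * b else 0 := by
      intro s
      rw [← Finset.mul_sum, hb r s]
      split_ifs
      · rw [smul_mul_assoc, mul_smul_comm]
      · rw [mul_zero]
    simp only [this, Finset.sum_ite_eq, Finset.mem_univ, if_true]
  simp only [e]
  rw [Finset.sum_comm]
  simp only [e2]
  rw [← Finset.sum_mul, ha j p]
  split_ifs
  · rw [smul_mul_assoc]
  · rw [zero_mul]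

theorem CapP.add {a b : A} (ha : CapP H1 H2 w a) (hb : CapP H1 H2 w b) :
    CapP H1 H2 w (a + b) := by
  intro i k
  simp only [map_add, Matrix.add_apply, smul_add, Finset.sum_add_distrib]
  rw [ha i k, hb i k]
  split_ifs <;> simp

theorem CupP.add {a b : A} (ha : CupP H1 H2 w a) (hb : CupP H1 H2 w b) :
    CupP H1 H2 w (a + b) := by
  intro i k
  simp only [map_add, Matrix.add_apply, smul_add, Finset.sum_add_distrib]
  rw [ha i k, hb i k]
  split_ifs <;> simp

theorem capP_zero : CapP H1 H2 w 0 := by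
  intro i k
  simp

theorem cupP_zero : CupP H1 H2 w 0 := by
  intro i k
  simp

/-- diagonal generators. -/
theorem capP_diag {g : A} (c d : ι → ℂ) (hcd : ∀ a, c a * d a = 1)
    (h1 : ∀ a b, H1 g a b = if a = b then c a • g else 0)
    (h2 : ∀ a b, H2 g a b = if a = b then d a • g else 0) : CapP H1 H2 w g := by
  intro i k
  have e : ∀ j, w j • H2 (H1 g j i) j k = if j = i then w i • H2 (c i • g) i k else 0 := by
    intro j
    rw [h1]
    split_ifs with h
    · subst h; rfl
    · simp
  simp only [e, Finset.sum_ite_eq', Finset.mem_univ, if_true]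
  rw [map_smul, Matrix.smul_apply, h2]
  by_cases h : i = k
  · subst h
    simp [smul_smul, hcd]
  · have h' : ¬ k = i := fun e => h e.symm
    simp [h, h']

theorem cupP_diag {g : A} (c d : ι → ℂ) (hcd : ∀ a, c a * d a = 1)
    (h1 : ∀ a b, H1 g a b = if a = b then c a • g else 0)
    (h2 : ∀ a b, H2 g a b = if a = b then d a • g else 0) : CupP H1 H2 w g := by
  intro j p
  have e : ∀ i, w i • H2 (H1 g j i) p i = if j = i then w j • H2 (c j • g) p j else 0 := by
    intro i
    rw [h1]
    split_ifs with h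
    · subst h; rfl
    · simp
  simp only [e, Finset.sum_ite_eq, Finset.mem_univ, if_true]
  rw [map_smul, Matrix.smul_apply, h2]
  by_cases h : p = j
  · subst h
    simp [smul_smul, hcd]
  · have h' : ¬ j = p := fun e => h e.symm
    simp [h, h']

theorem capP_alg (r : ℂ) : CapP H1 H2 w (algebraMap ℂ A r) := by
  have h : ∀ H : A →ₐ[ℂ] Matrix ι ι A, ∀ a b, H (algebraMap ℂ A r) a b
      = if a = b then (1 : ℂ) • algebraMap ℂ A r else 0 := by
    intro H a b
    rw [AlgHom.commutes, Matrix.algebraMap_matrix_apply]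
    simp
  exact capP_diag (fun _ => 1) (fun _ => 1) (fun _ => mul_one 1) (h H1) (h H2)

theorem cupP_alg (r : ℂ) : CupP H1 H2 w (algebraMap ℂ A r) := by
  have h : ∀ H : A →ₐ[ℂ] Matrix ι ι A, ∀ a b, H (algebraMap ℂ A r) a b
      = if a = b then (1 : ℂ) • algebraMap ℂ A r else 0 := by
    intro H a b
    rw [AlgHom.commutes, Matrix.algebraMap_matrix_apply]
    simp
  exact cupP_diag (fun _ => 1) (fun _ => 1) (fun _ => mul_one 1) (h H1) (h H2)

/-- generators with one off-diagonal entry. -/
theorem capP_off {g z z' z2 : A} (X Y : ι) (hXY : X ≠ Y) (c d : ι → ℂ) (hcd : ∀ a, c a * d a = 1)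
    (h1 : ∀ a b, H1 g a b = (if a = b then c a • g else 0) + (if a = X ∧ b = Y then z else 0))
    (h2 : ∀ a b, H2 g a b = (if a = b then d a • g else 0) + (if a = Y ∧ b = X then z' else 0))
    (hz : ∀ k, H2 z X k = if X = k then z2 else 0)
    (hzz : w Y • (c Y • z') + w X • z2 = 0) : CapP H1 H2 w g := by
  intro i k
  have e : ∀ j, w j • H2 (H1 g j i) j k = (if j = i then w i • H2 (c i • g) i k else 0)
      + (if j = X then (if i = Y then w X • H2 z X k else 0) else 0) := by
    intro j
    rw [h1, map_add, Matrix.add_apply, smul_add]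
    congr 1
    · split_ifs with h
      · subst h; rfl
      · simp
    · by_cases hj : j = X
      · subst hj
        by_cases hi : i = Y
        · simp [hi]
        · simp [hi]
      · simp [hj]
  simp only [e, Finset.sum_add_distrib, Finset.sum_ite_eq', Finset.mem_univ, if_true]
  rw [map_smul, Matrix.smul_apply, h2, hz]
  by_cases h : i = k
  · subst h
    by_cases h3 : i = Y
    · subst h3
      have : ¬ i = X := fun e => hXY e.symm
      simp [hXY, this, smul_smul, hcd]
    · simp [h3, smul_smul, hcd]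
  · have h' : ¬ k = i := fun e => h e.symm
    by_cases h3 : i = Y
    · subst h3
      by_cases h4 : k = X
      · subst h4
        simpa [h, h'] using hzz
      · have h5 : ¬ X = k := fun e => h4 e.symm
        simp [h, h', h4, h5]
    · simp [h, h', h3]

theorem cupP_off {g z z' z2 : A} (X Y : ι) (hXY : X ≠ Y) (c d : ι → ℂ) (hcd : ∀ a, c a * d a = 1)
    (h1 : ∀ a b, H1 g a b = (if a = b then c a • g else 0) + (if a = X ∧ b = Y then z else 0))
    (h2 : ∀ a b, H2 g a b = (if a = b then d a • g else 0) + (if a = Y ∧ b = X then z' else 0))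
    (hz : ∀ p, H2 z p Y = if p = Y then z2 else 0)
    (hzz : w X • (c X • z') + w Y • z2 = 0) : CupP H1 H2 w g := by
  intro j p
  have e : ∀ i, w i • H2 (H1 g j i) p i = (if j = i then w j • H2 (c j • g) p j else 0)
      + (if i = Y then (if j = X then w Y • H2 z p Y else 0) else 0) := by
    intro i
    rw [h1, map_add, Matrix.add_apply, smul_add]
    congr 1
    · split_ifs with h
      · subst h; rfl
      · simp
    · by_cases hi : i = Y
      · subst hi
        by_cases hj : j = X
        · simp [hj]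
        · simp [hj]
      · simp [hi]
  simp only [e, Finset.sum_add_distrib, Finset.sum_ite_eq', Finset.sum_ite_eq, Finset.mem_univ,
    if_true]
  rw [map_smul, Matrix.smul_apply, h2, hz]
  by_cases h : j = p
  · subst h
    by_cases h3 : j = X
    · subst h3
      simp [hXY, smul_smul, hcd]
    · simp [h3, smul_smul, hcd]
  · have h' : ¬ p = j := fun e => h e.symm
    by_cases h3 : j = X
    · subst h3
      by_cases h4 : p = Y
      · subst h4
        simpa [h, h'] using hzz
      · simp [h, h', h4]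
    · simp [h, h', h3]

end Abs

section Gens

variable {N l : ℕ} {q : ℂ}

theorem finEq {p : ℕ} (hp : p < N + 1) (a : Fin (N + 1)) : (a : ℕ) = p ↔ a = ⟨p, hp⟩ :=
  ⟨fun h => Fin.ext h, fun h => by rw [h]⟩

/-- `K_{p+1} K_p⁻¹`. -/
def kr (N l : ℕ) (q : ℂ) (p : ℕ) : A N l q := gK N l q (p + 1) * ki l (gK N l q) p

theorem diag_pow {B : Type} [Ring B] [Algebra ℂ B] (c : Fin (N + 1) → ℂ) (g : B) (n : ℕ) :
    (Matrix.of fun a b : Fin (N + 1) => if a = b then c a • g else 0) ^ n
      = Matrix.of fun a b : Fin (N + 1) => if a = b then c a ^ n • g ^ n else 0 := by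
  have e : ∀ (c : Fin (N + 1) → ℂ) (g : B),
      (Matrix.of fun a b : Fin (N + 1) => if a = b then c a • g else 0)
      = Matrix.diagonal (fun a => c a • g) := by
    intro c g
    ext a b
    simp [Matrix.diagonal_apply]
  rw [e, e (fun a => c a ^ n) (g ^ n), Matrix.diagonal_pow]
  congr 1
  funext a
  simp [smul_pow]

theorem diag_mul {B : Type} [Ring B] [Algebra ℂ B] (c d : Fin (N + 1) → ℂ) (g h : B) :
    (Matrix.of fun a b : Fin (N + 1) => if a = b then c a • g else 0)
      * (Matrix.of fun a b : Fin (N + 1) => if a = b then d a • h else 0)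
      = Matrix.of fun a b : Fin (N + 1) => if a = b then (c a * d a) • (g * h) else 0 := by
  have e : ∀ (c : Fin (N + 1) → ℂ) (g : B),
      (Matrix.of fun a b : Fin (N + 1) => if a = b then c a • g else 0)
      = Matrix.diagonal (fun a => c a • g) := by
    intro c g
    ext a b
    simp [Matrix.diagonal_apply]
  rw [e, e, e (fun a => c a * d a) (g * h), Matrix.diagonal_mul_diagonal]
  congr 1
  funext a
  rw [smul_mul_smul_comm]

theorem q_ne (h : Par N l q) : q ≠ 0 :=
  h.prim.ne_zero (by have := h.h3; omega)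

theorem q_pow_pred (h : Par N l q) : q ^ (l - 1) = q⁻¹ := by
  have h0 := q_ne h
  have h3 := h.h3
  have h1 : q ^ (l - 1) * q = 1 := by
    rw [← pow_succ, show l - 1 + 1 = l by omega, h.prim.pow_eq_one]
  exact eq_inv_of_mul_eq_one_left h1

theorem qi_pow_pred (h : Par N l q) : q⁻¹ ^ (l - 1) = q := by
  rw [inv_pow, q_pow_pred h, inv_inv]

/-- value of a map with `K j ↦ diag` on `K_{p+1} K_p⁻¹`. -/
theorem H_kr (H : A N l q →ₐ[ℂ] Mat N (A N l q)) (x y : ℂ) (hxy : x ^ (l - 1) = y)
    (hK : ∀ i, H (gK N l q i) = Matrix.of fun a b : Fin (N + 1) =>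
      if a = b then (if (a : ℕ) = i then x else 1) • gK N l q i else 0) (p : ℕ)
    (a b : Fin (N + 1)) :
    H (kr N l q p) a b = if a = b then (if (a : ℕ) = p + 1 then x else
      if (a : ℕ) = p then y else 1) • kr N l q p else 0 := by
  rw [kr, map_mul, hK, ki, map_pow, hK, diag_pow, diag_mul]
  simp only [Matrix.of_apply]
  by_cases h : a = b
  · subst h
    simp only [if_true]
    congr 1
    by_cases h1 : (a : ℕ) = p + 1
    · have h2 : ¬ (a : ℕ) = p := by omega
      simp [h1]
    · by_cases h2 : (a : ℕ) = p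
      · simp [h2, hxy]
      · simp [h1, h2]
  · simp [h]

variable (D : Dl N l q)

theorem dl_kr (h : Par N l q) (p : ℕ) (a b : Fin (N + 1)) :
    D.dl (kr N l q p) a b = if a = b then (if (a : ℕ) = p + 1 then q else
      if (a : ℕ) = p then q⁻¹ else 1) • kr N l q p else 0 :=
  H_kr D.dl q q⁻¹ (q_pow_pred h) (fun i => D.dl_K i) p a b

theorem ep_kr (h : Par N l q) (p : ℕ) (a b : Fin (N + 1)) :
    D.ep (kr N l q p) a b = if a = b then (if (a : ℕ) = p + 1 then q⁻¹ else
      if (a : ℕ) = p then q else 1) • kr N l q p else 0 :=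
  H_kr D.ep q⁻¹ q (qi_pow_pred h) (fun i => D.ep_K i) p a b

theorem dlE {p : ℕ} (hp : p < N) (a b : Fin (N + 1)) :
    D.dl (gE N l q p) a b = (if a = b then q ^ pr a p • gE N l q p else 0)
      + (if a = (⟨p, by omega⟩ : Fin (N + 1)) ∧ b = (⟨p + 1, by omega⟩ : Fin (N + 1))
        then 1 else 0) := by
  rw [D.dl_E]
  simp only [dE, Matrix.of_apply, ← finEq]

theorem epE {p : ℕ} (hp : p < N) (a b : Fin (N + 1)) :
    D.ep (gE N l q p) a b = (if a = b then q ^ (-pr a p) • gE N l q p else 0)
      + (if a = (⟨p + 1, by omega⟩ : Fin (N + 1)) ∧ b = (⟨p, by omega⟩ : Fin (N + 1))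
        then (-q) • 1 else 0) := by
  rw [D.ep_E]
  simp only [eE, Matrix.of_apply, ← finEq]

theorem dlF {p : ℕ} (hp : p < N) (a b : Fin (N + 1)) :
    D.dl (gF N l q p) a b = (if a = b then (1 : ℂ) • gF N l q p else 0)
      + (if a = (⟨p + 1, by omega⟩ : Fin (N + 1)) ∧ b = (⟨p, by omega⟩ : Fin (N + 1))
        then kr N l q p else 0) := by
  rw [D.dl_F]
  simp only [dF, Matrix.of_apply, ← finEq, one_smul, kr]

theorem epF {p : ℕ} (hp : p < N) (a b : Fin (N + 1)) :
    D.ep (gF N l q p) a b = (if a = b then (1 : ℂ) • gF N l q p else 0)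
      + (if a = (⟨p, by omega⟩ : Fin (N + 1)) ∧ b = (⟨p + 1, by omega⟩ : Fin (N + 1))
        then (-q⁻¹) • kr N l q p else 0) := by
  rw [D.ep_F]
  simp only [eF, Matrix.of_apply, ← finEq, one_smul, kr]

theorem gE_zero {p : ℕ} (hp : ¬ p < N) : gE N l q p = 0 := (glA N l q).E_out p (by omega)
theorem gF_zero {p : ℕ} (hp : ¬ p < N) : gF N l q p = 0 := (glA N l q).F_out p (by omega)

theorem pr_self (p : ℕ) : pr p p = 1 := by simp [pr]
theorem pr_succ (p : ℕ) : pr (p + 1) p = -1 := by simp [pr]

theorem one_app {B : Type} [Ring B] [Algebra ℂ B] (H : B →ₐ[ℂ] Mat N B)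
    (a b : Fin (N + 1)) : H (1 : B) a b = if a = b then (1 : B) else 0 := by
  rw [map_one, Matrix.one_apply]

/-! ### the four identities -/

theorem zz (h0 : q ≠ 0) (x : ℤ) : q ^ x * q ^ (-x) = 1 := by
  rw [← zpow_add₀ h0]; simp

theorem zz' (h0 : q ≠ 0) (x : ℤ) : q ^ (-x) * q ^ x = 1 := by
  rw [← zpow_add₀ h0]; simp

theorem cap0 (h : Par N l q) (a : A N l q) : CapP D.dl D.ep (fun _ => 1) a := by
  have h0 := q_ne h
  refine A_induction (fun c => capP_alg c) (fun p => ?_) (fun p => ?_) (fun p => ?_)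
    (fun a b ha hb => ha.add hb) (fun a b ha hb => ha.mul hb) a
  · by_cases hp : p < N
    · refine capP_off (z := 1) (z' := (-q) • 1) (z2 := 1) ⟨p, by omega⟩ ⟨p + 1, by omega⟩ (by simp)
        (fun a => q ^ pr a p) (fun a => q ^ (-pr a p)) (fun a => zz h0 _) (dlE D hp) (epE D hp)
        (fun k => one_app _ _ _) ?_
      simp only [pr_succ, one_smul, smul_smul]
      rw [zpow_neg, zpow_one, mul_neg, inv_mul_cancel₀ h0]
      module
    · rw [gE_zero hp]; exact capP_zero
  · by_cases hp : p < N
    · refine capP_off (z := kr N l q p) (z' := (-q⁻¹) • kr N l q p) (z2 := q⁻¹ • kr N l q p)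
        ⟨p + 1, by omega⟩ ⟨p, by omega⟩ (by simp)
        (fun a => 1) (fun a => 1) (fun a => mul_one 1) (dlF D hp) (epF D hp)
        (fun k => ?_) ?_
      · rw [ep_kr D h]; simp
      · module
    · rw [gF_zero hp]; exact capP_zero
  · refine capP_diag (fun a => if (a : ℕ) = p then q else 1) (fun a => if (a : ℕ) = p then q⁻¹ else 1)
      (fun a => ?_) (fun a b => ?_) (fun a b => ?_)
    · split_ifs
      · exact mul_inv_cancel₀ h0
      · exact mul_one 1
    · rw [D.dl_K]; rfl
    · rw [D.ep_K]; rfl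

theorem cup0 (h : Par N l q) (a : A N l q) : CupP D.ep D.dl (fun _ => 1) a := by
  have h0 := q_ne h
  refine A_induction (fun c => cupP_alg c) (fun p => ?_) (fun p => ?_) (fun p => ?_)
    (fun a b ha hb => ha.add hb) (fun a b ha hb => ha.mul hb) a
  · by_cases hp : p < N
    · refine cupP_off (z := (-q) • 1) (z' := 1) (z2 := (-q) • 1) ⟨p + 1, by omega⟩ ⟨p, by omega⟩
        (by simp) (fun a => q ^ (-pr a p)) (fun a => q ^ pr a p) (fun a => zz' h0 _)
        (epE D hp) (dlE D hp) (fun k => ?_) ?_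
      · rw [map_smul, Matrix.smul_apply, one_app]
        split_ifs <;> simp
      · simp only [pr_succ, one_smul, neg_neg, zpow_one]
        module
    · rw [gE_zero hp]; exact cupP_zero
  · by_cases hp : p < N
    · refine cupP_off (z := (-q⁻¹) • kr N l q p) (z' := kr N l q p)
        (z2 := ((-q⁻¹) * q) • kr N l q p)
        ⟨p, by omega⟩ ⟨p + 1, by omega⟩ (by simp)
        (fun a => 1) (fun a => 1) (fun a => mul_one 1) (epF D hp) (dlF D hp)
        (fun k => ?_) ?_
      · rw [map_smul, Matrix.smul_apply, dl_kr D h]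
        by_cases hk : k = ⟨p + 1, by omega⟩
        · subst hk
          simp [smul_smul]
        · simp [hk]
      · rw [neg_mul, inv_mul_cancel₀ h0]
        module
    · rw [gF_zero hp]; exact cupP_zero
  · refine cupP_diag (fun a => if (a : ℕ) = p then q⁻¹ else 1) (fun a => if (a : ℕ) = p then q else 1)
      (fun a => ?_) (fun a b => ?_) (fun a b => ?_)
    · split_ifs
      · exact inv_mul_cancel₀ h0
      · exact mul_one 1
    · rw [D.ep_K]; rfl
    · rw [D.dl_K]; rfl

theorem cap1 (h : Par N l q) (a : A N l q) :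
    CapP D.ep D.dl (fun j : Fin (N + 1) => q⁻¹ ^ (2 * (j : ℕ))) a := by
  have h0 := q_ne h
  refine A_induction (fun c => capP_alg c) (fun p => ?_) (fun p => ?_) (fun p => ?_)
    (fun a b ha hb => ha.add hb) (fun a b ha hb => ha.mul hb) a
  · by_cases hp : p < N
    · refine capP_off (z := (-q) • 1) (z' := 1) (z2 := (-q) • 1) ⟨p + 1, by omega⟩ ⟨p, by omega⟩
        (by simp) (fun a => q ^ (-pr a p)) (fun a => q ^ pr a p) (fun a => zz' h0 _)
        (epE D hp) (dlE D hp) (fun k => ?_) ?_
      · rw [map_smul, Matrix.smul_apply, one_app]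
        split_ifs <;> simp
      · simp only [pr_self, smul_smul, zpow_neg, zpow_one]
        rw [← add_smul]
        have : q⁻¹ ^ (2 * p) * q⁻¹ + q⁻¹ ^ (2 * (p + 1)) * -q = 0 := by
          rw [show 2 * (p + 1) = 2 * p + 2 by ring, pow_add]
          field_simp
          ring
        rw [this, zero_smul]
    · rw [gE_zero hp]; exact capP_zero
  · by_cases hp : p < N
    · refine capP_off (z := (-q⁻¹) • kr N l q p) (z' := kr N l q p)
        (z2 := ((-q⁻¹) * q⁻¹) • kr N l q p)
        ⟨p, by omega⟩ ⟨p + 1, by omega⟩ (by simp)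
        (fun a => 1) (fun a => 1) (fun a => mul_one 1) (epF D hp) (dlF D hp)
        (fun k => ?_) ?_
      · rw [map_smul, Matrix.smul_apply, dl_kr D h]
        by_cases hk : (⟨p, by omega⟩ : Fin (N + 1)) = k
        · subst hk
          simp [smul_smul]
        · simp [hk]
      · simp only [one_smul, smul_smul]
        rw [← add_smul]
        have : q⁻¹ ^ (2 * (p + 1)) + q⁻¹ ^ (2 * p) * (-q⁻¹ * q⁻¹) = 0 := by
          rw [show 2 * (p + 1) = 2 * p + 2 by ring, pow_add]
          ring
        rw [this, zero_smul]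
    · rw [gF_zero hp]; exact capP_zero
  · refine capP_diag (fun a => if (a : ℕ) = p then q⁻¹ else 1) (fun a => if (a : ℕ) = p then q else 1)
      (fun a => ?_) (fun a b => ?_) (fun a b => ?_)
    · split_ifs
      · exact inv_mul_cancel₀ h0
      · exact mul_one 1
    · rw [D.ep_K]; rfl
    · rw [D.dl_K]; rfl

theorem cup1 (h : Par N l q) (a : A N l q) :
    CupP D.dl D.ep (fun j : Fin (N + 1) => q ^ (2 * (j : ℕ))) a := by
  have h0 := q_ne h
  refine A_induction (fun c => cupP_alg c) (fun p => ?_) (fun p => ?_) (fun p => ?_)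
    (fun a b ha hb => ha.add hb) (fun a b ha hb => ha.mul hb) a
  · by_cases hp : p < N
    · refine cupP_off (z := 1) (z' := (-q) • 1) (z2 := 1) ⟨p, by omega⟩ ⟨p + 1, by omega⟩
        (by simp) (fun a => q ^ pr a p) (fun a => q ^ (-pr a p)) (fun a => zz h0 _)
        (dlE D hp) (epE D hp) (fun k => one_app _ _ _) ?_
      simp only [pr_self, smul_smul, zpow_one]
      rw [← add_smul]
      have : q ^ (2 * p) * (q * -q) + q ^ (2 * (p + 1)) = 0 := by
        ring
      rw [this, zero_smul]
    · rw [gE_zero hp]; exact cupP_zero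
  · by_cases hp : p < N
    · refine cupP_off (z := kr N l q p) (z' := (-q⁻¹) • kr N l q p)
        (z2 := q • kr N l q p)
        ⟨p + 1, by omega⟩ ⟨p, by omega⟩ (by simp)
        (fun a => 1) (fun a => 1) (fun a => mul_one 1) (dlF D hp) (epF D hp)
        (fun k => ?_) ?_
      · rw [ep_kr D h]
        by_cases hk : k = ⟨p, by omega⟩
        · subst hk
          simp
        · simp [hk]
      · simp only [smul_smul, one_mul]
        rw [← add_smul]
        have : q ^ (2 * (p + 1)) * -q⁻¹ + q ^ (2 * p) * q = 0 := by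
          rw [show 2 * (p + 1) = 2 * p + 2 by ring, pow_add]
          field_simp
          ring
        rw [this, zero_smul]
    · rw [gF_zero hp]; exact cupP_zero
  · refine cupP_diag (fun a => if (a : ℕ) = p then q else 1) (fun a => if (a : ℕ) = p then q⁻¹ else 1)
      (fun a => ?_) (fun a b => ?_) (fun a b => ?_)
    · split_ifs
      · exact mul_inv_cancel₀ h0
      · exact mul_one 1
    · rw [D.dl_K]; rfl
    · rw [D.ep_K]; rfl

end Gens

theorem sCAP0 : S_CAP0 := by
  intro N l q h D a i k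
  have := cap0 D h a i k
  simpa using this

theorem sCUP0 : S_CUP0 := by
  intro N l q h D a p j
  have := cup0 D h a j p
  simpa using this

theorem sCAP1 : S_CAP1 := by
  intro N l q h D a i k
  exact cap1 D h a i k

theorem sCUP1 : S_CUP1 := by
  intro N l q h D a p j
  have := cup1 D h a p j
  rw [this]
  by_cases hj : j = p
  · subst hj; simp
  · have : ¬ p = j := fun e => hj e.symm
    simp [hj, this]

end

end Pool.Agent.Helper14.SQ
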