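import Pool.Agent.Helper4.SQ.GoalsR2

/-!
Project SQ (MP_bb32d1_al), stage B, packet DIMZ: the center and the traces.
-/

set_option autoImplicit false
set_option linter.unusedSectionVars false

namespace Pool.Agent.Helper14.SQ

noncomputable section

open Matrix Pool.Agent.Helper19.SQ Pool.Agent.Helper34.SQ Pool.Agent.Helper41.SQ
open Pool.Agent.Helper4.SQ

section

variable {A : Type} [Ring A] [Algebra ℂ A] {ι : Type} [Fintype ι] [DecidableEq ι] {l : ℕ}
  (C : Core A ι l)

/-- `z ↦ t(z ·)` -/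
def fT (t : A →ₗ[ℂ] ℂ) : A →ₗ[ℂ] (A →ₗ[ℂ] ℂ) := (LinearMap.mul ℂ A).compr₂ t

theorem fT_apply (t : A →ₗ[ℂ] ℂ) (z x : A) : fT t z x = t (z * x) := rfl

theorem fT_inj {t : A →ₗ[ℂ] ℂ} (hn : ∀ x, (∀ y, t (x * y) = 0) → x = 0) :
    Function.Injective (fT t) := by
  rw [← LinearMap.ker_eq_bot, LinearMap.ker_eq_bot']
  intro z hz
  exact hn z fun y => by
    rw [← fT_apply, hz]
    rfl

theorem fT_tr {t : A →ₗ[ℂ] ℂ} (ht : ∀ x y, t (x * y) = t (y * x)) {z : A}
    (hz : ∀ a, z * a = a * z) (x y : A) : fT t z (x * y) = fT t z (y * x) := by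
  rw [fT_apply, fT_apply, ← mul_assoc, ht, ← mul_assoc, ← hz, mul_assoc]

/-- the component of a trace in the block `m` -/
theorem comp_mem {τ : A →ₗ[ℂ] ℂ} (hτ : τ ∈ Tinv C.toCore0) (m : ZMod l → ℤ) :
    τ ∘ₗ LinearMap.mulRight ℂ (C.e m) ∈ Tm C m := by
  refine ⟨fun x y => ?_, fun x => ?_, fun x => ?_⟩
  · change τ (x * y * C.e m) = τ (y * x * C.e m)
    rw [mul_assoc, hτ.1, mul_assoc, C.e_cen, mul_assoc]
  · change τ (C.φ x * C.e m) = 1 * τ (x * C.e m)
    have e : C.φ (x * C.e m) = C.φ x * C.e m := by rw [map_mul, C.φe]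
    rw [one_mul, ← hτ.2 (x * C.e m), e]
  · change τ (x * C.e m * C.e m) = τ (x * C.e m)
    rw [mul_assoc, C.e_idem]

/-- the decomposition of the invariant traces -/
def dT : Tinv C.toCore0 →ₗ[ℂ] (∀ m : C.types, Tm C m) where
  toFun τ m := ⟨τ.1 ∘ₗ LinearMap.mulRight ℂ (C.e m), comp_mem C τ.2 m⟩
  map_add' _ _ := rfl
  map_smul' _ _ := rfl

theorem dT_inj : Function.Injective (dT C) := by
  rw [← LinearMap.ker_eq_bot, LinearMap.ker_eq_bot']
  intro τ hτ
  apply Subtype.ext
  apply LinearMap.ext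
  intro x
  have h1 : ∀ m ∈ C.types, τ.1 (x * C.e m) = 0 := by
    intro m hm
    have h2 := congrArg (fun f => ((f ⟨m, hm⟩ : Tm C m) : A →ₗ[ℂ] ℂ) x) hτ
    exact h2
  have h3 : τ.1 x = ∑ m ∈ C.types, τ.1 (x * C.e m) := by
    rw [← map_sum, ← Finset.mul_sum, C.e_sum, mul_one]
  rw [h3, Finset.sum_eq_zero h1]
  rfl

end

/-- **DIMZ** -/
theorem sDIMZ (hTF : S_TF) : S_DIMZ := by
  intro N l _ q hl s D C hS hall
  have : FiniteDimensional ℂ (A N l q) := hS.fd
  obtain ⟨t, ht, hn, -⟩ := hTF N l q hl D hS.par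
  refine ⟨?_, fun m => ?_, ?_⟩
  · have hmem : ∀ z : Subalgebra.center ℂ (A N l q), fT t (z : A N l q) ∈ Tinv C.toCore0 := by
      intro z
      have hz : ∀ a, (z : A N l q) * a = a * z := fun a =>
        ((Subalgebra.mem_center_iff.mp z.2) a).symm
      exact hall _ fun x y => fT_tr ht hz x y
    let L : Subalgebra.center ℂ (A N l q) →ₗ[ℂ] Tinv C.toCore0 :=
      { toFun := fun z => ⟨fT t (z : A N l q), hmem z⟩
        map_add' := fun a b => Subtype.ext (map_add (fT t) (a : A N l q) b)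
        map_smul' := fun c a => Subtype.ext (map_smul (fT t) c (a : A N l q)) }
    have hL : Function.Injective L := by
      intro a b h
      exact Subtype.ext (fT_inj hn (congrArg Subtype.val h))
    exact LinearMap.finrank_le_finrank_of_injective hL
  · have hmem : ∀ z : Zm C m, fT t (z : A N l q) ∈ Tm C m := by
      intro z
      have hz := z.2.1
      have hz2 := z.2.2
      have h1 := hall (fT t (z : A N l q)) fun x y => fT_tr ht hz x y
      refine ⟨h1.1, fun x => ?_, fun x => ?_⟩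
      · rw [one_mul]
        exact h1.2 x
      · rw [fT_apply, fT_apply, ← C.e_cen, ← mul_assoc, hz2]
    let L : Zm C m →ₗ[ℂ] Tm C m :=
      { toFun := fun z => ⟨fT t (z : A N l q), hmem z⟩
        map_add' := fun a b => Subtype.ext (map_add (fT t) (a : A N l q) b)
        map_smul' := fun c a => Subtype.ext (map_smul (fT t) c (a : A N l q)) }
    have hL : Function.Injective L := by
      intro a b h
      exact Subtype.ext (fT_inj hn (congrArg Subtype.val h))
    exact LinearMap.finrank_le_finrank_of_injective hL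
  · refine (LinearMap.finrank_le_finrank_of_injective (dT_inj C)).trans (le_of_eq ?_)
    rw [Module.finrank_pi_fintype]
    exact Finset.sum_coe_sort C.types fun m => Module.finrank ℂ (Tm C m)

end

end Pool.Agent.Helper14.SQ
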