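import Pool.Agent.Helper41.SQ.GoalsN

/-!
Project SQ (MP_bb32d1_al), stage B, packet N TOWS, TOW: the tower.
-/

set_option autoImplicit false
set_option linter.unusedSectionVars false

namespace Pool.Agent.Helper14.SQN

noncomputable section

open Matrix Pool.Agent.Helper19.SQ Pool.Agent.Helper34.SQ Pool.Agent.Helper41.SQ

section

variable {A : Type} [Ring A] [Algebra ℂ A] {ι κ : Type} [Fintype ι] [DecidableEq ι]
  [Fintype κ] [DecidableEq κ]

/-- (a) -/
theorem ph_bd {H : A →ₐ[ℂ] Matrix κ κ A} {Z : Matrix κ κ A} (hZ : ∀ a, Z * H a = H a * Z)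
    (M : Matrix ι ι A) : PhG H M * bdG ι Z = bdG ι Z * PhG H M := by
  ext x y
  have e1 : (PhG H M * bdG ι Z) x y = (H (M x.1 y.1) * Z) x.2 y.2 := by
    rw [Matrix.mul_apply, Fintype.sum_prod_type, Finset.sum_eq_single y.1, Matrix.mul_apply]
    · refine Finset.sum_congr rfl fun s _ => ?_
      rw [PhG_apply, bdG_apply, if_pos rfl]
    · intro b _ hb
      refine Finset.sum_eq_zero fun s _ => ?_
      rw [bdG_apply, if_neg hb, mul_zero]
    · intro h
      exact absurd (Finset.mem_univ _) h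
  have e2 : (bdG ι Z * PhG H M) x y = (Z * H (M x.1 y.1)) x.2 y.2 := by
    rw [Matrix.mul_apply, Fintype.sum_prod_type, Finset.sum_eq_single x.1, Matrix.mul_apply]
    · refine Finset.sum_congr rfl fun s _ => ?_
      rw [PhG_apply, bdG_apply, if_pos rfl]
    · intro b _ hb
      refine Finset.sum_eq_zero fun s _ => ?_
      rw [bdG_apply, if_neg (Ne.symm hb), zero_mul]
    · intro h
      exact absurd (Finset.mem_univ _) h
  rw [e1, e2, hZ]

/-- (c) -/
theorem lf_bd (R : Matrix (ι × ι) (ι × ι) ℂ) (Z : Matrix κ κ A) :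
    lfR A κ R * bdG ι (bdG ι Z) = bdG ι (bdG ι Z) * lfR A κ R := by
  ext x y
  have e1 : (lfR A κ R * bdG ι (bdG ι Z)) x y =
      algebraMap ℂ A (R (x.1, x.2.1) (y.1, y.2.1)) * Z x.2.2 y.2.2 := by
    rw [Matrix.mul_apply, Fintype.sum_prod_type, Finset.sum_eq_single y.1,
      Fintype.sum_prod_type, Finset.sum_eq_single y.2.1, Finset.sum_eq_single x.2.2]
    · simp [lfR]
    · intro b _ hb
      simp [lfR, Ne.symm hb]
    · intro h
      exact absurd (Finset.mem_univ _) h
    · intro b _ hb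
      refine Finset.sum_eq_zero fun s _ => ?_
      simp [bdG_apply, hb]
    · intro h
      exact absurd (Finset.mem_univ _) h
    · intro b _ hb
      refine Finset.sum_eq_zero fun s _ => ?_
      simp [bdG_apply, hb]
    · intro h
      exact absurd (Finset.mem_univ _) h
  have e2 : (bdG ι (bdG ι Z) * lfR A κ R) x y =
      Z x.2.2 y.2.2 * algebraMap ℂ A (R (x.1, x.2.1) (y.1, y.2.1)) := by
    rw [Matrix.mul_apply, Fintype.sum_prod_type, Finset.sum_eq_single x.1,
      Fintype.sum_prod_type, Finset.sum_eq_single x.2.1, Finset.sum_eq_single y.2.2]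
    · simp [lfR]
    · intro b _ hb
      simp [lfR, hb]
    · intro h
      exact absurd (Finset.mem_univ _) h
    · intro b _ hb
      refine Finset.sum_eq_zero fun s _ => ?_
      simp [bdG_apply, Ne.symm hb]
    · intro h
      exact absurd (Finset.mem_univ _) h
    · intro b _ hb
      refine Finset.sum_eq_zero fun s _ => ?_
      simp [bdG_apply, Ne.symm hb]
    · intro h
      exact absurd (Finset.mem_univ _) h
  rw [e1, e2, Algebra.commutes]

/-- the image of a scalar matrix on three strands -/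
def th3 (A : Type) [Ring A] [Algebra ℂ A] (κ : Type) [DecidableEq κ]
    (M : Matrix (ι × (ι × ι)) (ι × (ι × ι)) ℂ) :
    Matrix (ι × (ι × (ι × κ))) (ι × (ι × (ι × κ))) A :=
  Matrix.of fun x y => if x.2.2.2 = y.2.2.2 then
    algebraMap ℂ A (M (x.1, (x.2.1, x.2.2.1)) (y.1, (y.2.1, y.2.2.1))) else 0

theorem th3_apply (M : Matrix (ι × (ι × ι)) (ι × (ι × ι)) ℂ) (x y : ι × (ι × (ι × κ))) :
    th3 A κ M x y = if x.2.2.2 = y.2.2.2 then
      algebraMap ℂ A (M (x.1, (x.2.1, x.2.2.1)) (y.1, (y.2.1, y.2.2.1))) else 0 := rfl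

theorem th3_mul (M N : Matrix (ι × (ι × ι)) (ι × (ι × ι)) ℂ) :
    th3 A κ (M * N) = th3 A κ M * th3 A κ N := by
  ext x y
  rw [th3_apply, Matrix.mul_apply, Matrix.mul_apply, Fintype.sum_prod_type, Fintype.sum_prod_type]
  simp_rw [Fintype.sum_prod_type]
  by_cases h : x.2.2.2 = y.2.2.2
  · rw [if_pos h, map_sum]
    refine Finset.sum_congr rfl fun a _ => ?_
    rw [map_sum]
    refine Finset.sum_congr rfl fun b _ => ?_
    rw [map_sum]
    refine Finset.sum_congr rfl fun c _ => ?_
    rw [Finset.sum_eq_single x.2.2.2]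
    · rw [th3_apply, th3_apply, if_pos rfl, if_pos h, map_mul]
    · intro s _ hs
      rw [th3_apply, if_neg (Ne.symm hs), zero_mul]
    · intro h
      exact absurd (Finset.mem_univ _) h
  · rw [if_neg h]
    symm
    refine Finset.sum_eq_zero fun a _ => Finset.sum_eq_zero fun b _ =>
      Finset.sum_eq_zero fun c _ => Finset.sum_eq_zero fun s _ => ?_
    rw [th3_apply, th3_apply]
    by_cases h1 : x.2.2.2 = s
    · rw [if_neg (fun h2 => h (h1.trans h2)), mul_zero]
    · rw [if_neg h1, zero_mul]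

theorem th3_r12 (R : Matrix (ι × ι) (ι × ι) ℂ) : th3 A κ (r12 R) = lfR A (ι × κ) R := by
  ext x y
  rw [th3_apply]
  simp only [r12, lfR, Matrix.of_apply]
  by_cases h1 : x.2.2.1 = y.2.2.1
  · by_cases h2 : x.2.2.2 = y.2.2.2
    · rw [if_pos h2, if_pos h1, if_pos (Prod.ext h1 h2)]
    · rw [if_neg h2, if_neg fun h => h2 (congrArg Prod.snd h)]
  · rw [if_neg h1, map_zero, ite_self, if_neg fun h => h1 (congrArg Prod.fst h)]

theorem th3_r23 (R : Matrix (ι × ι) (ι × ι) ℂ) : th3 A κ (r23 R) = bdG ι (lfR A κ R) := by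
  ext x y
  rw [th3_apply, bdG_apply]
  simp only [r23, lfR, Matrix.of_apply]
  by_cases h1 : x.1 = y.1
  · rw [if_pos h1, if_pos h1]
  · rw [if_neg h1, if_neg h1, map_zero, ite_self]

theorem pev_PhG (p : Polynomial ℂ) (H : A →ₐ[ℂ] Matrix κ κ A) (M : Matrix ι ι A) :
    pev p (PhG H M) = PhG H (pev p M) :=
  Polynomial.aeval_algHom_apply (PhG H) M p

theorem pev_bdG (p : Polynomial ℂ) (M : Matrix κ κ A) :
    pev p (bdG ι M) = bdG ι (pev p M) :=
  Polynomial.aeval_algHom_apply (bdG ι) M p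

theorem sc_quad (R : Matrix κ κ ℂ) (w : ℂ) : sc A (1 + w • R) = 1 + w • sc A R := by
  ext x y
  have e1 : sc A (1 + w • R) x y = algebraMap ℂ A ((1 : Matrix κ κ ℂ) x y + w * R x y) := rfl
  have e2 : (1 + w • sc A R) x y = (1 : Matrix κ κ A) x y + w • algebraMap ℂ A (R x y) := rfl
  have e3 : (1 : Matrix κ κ A) x y = algebraMap ℂ A ((1 : Matrix κ κ ℂ) x y) := by
    rw [← sc_one]
    rfl
  rw [e1, e2, e3, map_add, map_mul, Algebra.smul_def]

/-- level 0 -/
theorem good0 (S : Sd A ι) (H : A →ₐ[ℂ] Matrix κ κ A) :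
    GoodL S H (fun _ => 1) (fun _ => 1) 1 0 := by
  refine ⟨⟨?_, ?_, ?_, ?_, ?_, ?_⟩, ?_, ?_, ?_, ?_, ?_, ?_, ?_, ?_, ?_, ?_⟩
  · intro i k hi; omega
  · intro i hi; omega
  · intro i hi; omega
  · intro i k hi; omega
  · intro i k hi hk; omega
  · intro i hi; omega
  · intro i a
    rw [one_mul, mul_one]
  · intro i a
    rw [one_mul, mul_one]
  · intro i hi; omega
  · intro a
    rw [one_mul, mul_one]
  · intro h; omega
  · intro h; omega
  · intro i h1 h2; omega
  · intro i h1 h2; omega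
  · intro h; omega
  · intro h; omega

/-- the relations of the next level -/
theorem rel_next (S : Sd A ι) (H : A →ₐ[ℂ] Matrix κ κ A) (X R : ℕ → Matrix κ κ A)
    (r : Matrix (ι × κ) (ι × κ) A) (j : ℕ) (G : GoodL S H X R r j) :
    HeckeRel S.w (j + 1) (nX S H X) (nR r R) where
  XX := by
    intro i k hi hk
    rcases i with _ | i <;> rcases k with _ | k
    · rfl
    · exact ph_bd (G.cX k) S.X
    · exact (ph_bd (G.cX i) S.X).symm
    · change bdG ι (X i) * bdG ι (X k) = bdG ι (X k) * bdG ι (X i)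
      rw [← map_mul, ← map_mul, G.rel.XX i k (by omega) (by omega)]
  quad := by
    intro i hi
    rcases i with _ | i
    · exact G.rr (by omega)
    · change bdG ι (R i) * bdG ι (R i) = 1 + S.w • bdG ι (R i)
      rw [← map_mul, G.rel.quad i (by omega), map_add, map_one, map_smul]
  slide := by
    intro i hi
    rcases i with _ | i
    · exact G.Xr (by omega)
    · change bdG ι (X i) = bdG ι (R i) * bdG ι (X (i + 1)) * bdG ι (R i)
      rw [← map_mul, ← map_mul, ← G.rel.slide i (by omega)]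
  RX := by
    intro i k hi hk h1 h2
    rcases i with _ | i <;> rcases k with _ | k
    · exact absurd rfl h1
    · exact G.rX k (by omega) (by omega)
    · exact (ph_bd (G.cR i) S.X).symm
    · change bdG ι (R i) * bdG ι (X k) = bdG ι (X k) * bdG ι (R i)
      rw [← map_mul, ← map_mul, G.rel.RX i k (by omega) (by omega) (by omega) (by omega)]
  far := by
    intro i k hi hk
    rcases i with _ | i <;> rcases k with _ | k
    · omega
    · exact G.rR k (by omega) (by omega)
    · omega
    · change bdG ι (R i) * bdG ι (R k) = bdG ι (R k) * bdG ι (R i)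
      rw [← map_mul, ← map_mul, G.rel.far i k (by omega) (by omega)]
  braid := by
    intro i hi
    rcases i with _ | i
    · exact G.br1 (by omega)
    · change bdG ι (R i) * bdG ι (R (i + 1)) * bdG ι (R i) =
        bdG ι (R (i + 1)) * bdG ι (R i) * bdG ι (R (i + 1))
      rw [← map_mul, ← map_mul, ← map_mul, ← map_mul, G.rel.braid i (by omega)]

end

/-- **TOWS** -/
theorem n_tows : S_TOWS := by
  intro A _ _ ι κ _ _ _ _ S H X R r j G
  refine ⟨rel_next S H X R r j G, ?_, ?_, ?_, ?_, ?_, ?_, ?_, ?_, ?_, ?_⟩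
  · intro i a
    rcases i with _ | i
    · change PhG H S.X * PhG H (S.D a) = PhG H (S.D a) * PhG H S.X
      rw [← map_mul, ← map_mul, S.XD]
    · exact (ph_bd (G.cX i) (S.D a)).symm
  · intro i a
    rcases i with _ | i
    · exact G.cr a
    · exact (ph_bd (G.cR i) (S.D a)).symm
  · intro i hi
    rcases i with _ | i
    · obtain ⟨g, hg0, hg⟩ := S.inv
      refine ⟨g, hg0, ?_⟩
      change pev g (PhG H S.X) = 1
      rw [pev_PhG, hg, map_one]
    · obtain ⟨g, hg0, hg⟩ := G.inv i (by omega)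
      refine ⟨g, hg0, ?_⟩
      change pev g (bdG ι (X i)) = 1
      rw [pev_bdG, hg, map_one]
  · intro a
    change lfR A κ S.R * Ps3 H (Phi S.D (S.D a)) = Ps3 H (Phi S.D (S.D a)) * lfR A κ S.R
    rw [← Ps3_sc H, ← map_mul, ← map_mul, S.RD]
  · intro _
    rw [← Ps3_sc H, ← map_mul, sc_mul, S.RR, sc_quad, map_add, map_one, map_smul]
  · intro _
    change Ps3 H (Phi S.D S.X) = lfR A κ S.R * bdG ι (PhG H S.X) * lfR A κ S.R
    rw [← Ps3_sc H, ← Ps3_X1, ← map_mul, ← map_mul, S.XX]
  · intro i h1 h2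
    rcases i with _ | i
    · omega
    · exact lf_bd S.R (X i)
  · intro i h1 h2
    rcases i with _ | i
    · omega
    · exact lf_bd S.R (R i)
  · intro h
    exact G.br2 (by omega)
  · intro _
    rw [← th3_r12, ← th3_r23, ← th3_mul, ← th3_mul, ← th3_mul, ← th3_mul, S.br]

/-- **TOW** -/
theorem n_tow : S_TOW := by
  intro A _ _ ι _ _ S j
  induction j with
  | zero => exact good0 S (lev0 A ι).H
  | succ j ih => exact n_tows A ι (tow S j).κ S (tow S j).H (tow S j).X (tow S j).R (tow S j).r j ih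

end

end Pool.Agent.Helper14.SQN
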